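import Mathlib
import Pool.Agent.V11268.QP.Core
import Pool.Agent.V11268.QP.Lin

set_option autoImplicit false

namespace Pool.Agent.Results.MP_5cbcf2_nt.Quadric

open Finset Pool.Agent.V11268.QP

/-- The quadratic form `M(n) = n A nᵀ` on `F_p^d`. -/
def quad {p d : ℕ} (A : Matrix (Fin d) (Fin d) (ZMod p)) (n : Fin d → ZMod p) : ZMod p :=
  n ⬝ᵥ A.mulVec n

/-- The zero set `V(M)`. -/
def zeroSet {p d : ℕ} (A : Matrix (Fin d) (Fin d) (ZMod p)) : Set (Fin d → ZMod p) :=
  {n | quad A n = 0}

/-- `Δ_h g(n) = g(n+h) - g(n)`. -/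
def Delta {V F : Type*} [AddCommGroup V] [AddCommGroup F] (h : V) (g : V → F) : V → F :=
  fun n => g (n + h) - g n

/-- `iterDelta [h₁, …, h_s] g = Δ_{h_s} ⋯ Δ_{h₁} g`. -/
def iterDelta {V F : Type*} [AddCommGroup V] [AddCommGroup F] : List V → (V → F) → V → F
  | [], g => g
  | h :: t, g => iterDelta t (Delta h g)

/-- `(n, h₁, …, h_s)` lies in the Gowers set `□_s(Ω)`. -/
def IsGowers {V : Type*} [AddCommGroup V] {s : ℕ} (Ω : Set V) (n : V) (h : Fin s → V) : Prop :=
  ∀ ε : Fin s → Fin 2, n + ∑ i, (ε i : ℕ) • h i ∈ Ω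

/-- Condition (i). -/
def CondI {p d : ℕ} (s : ℕ) (A : Matrix (Fin d) (Fin d) (ZMod p))
    (g : (Fin d → ZMod p) → ZMod p) : Prop :=
  ∀ (n : Fin d → ZMod p) (h : Fin s → Fin d → ZMod p), IsGowers (zeroSet A) n h →
    iterDelta (List.ofFn h) g n = 0

/-- Condition (ii). -/
def CondII {p d : ℕ} (s : ℕ) (A : Matrix (Fin d) (Fin d) (ZMod p))
    (g : (Fin d → ZMod p) → ZMod p) : Prop :=
  ∃ P : MvPolynomial (Fin d) (ZMod p), P.totalDegree ≤ s - 1 ∧
    ∀ n ∈ zeroSet A, g n = MvPolynomial.eval n P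

/-! ### (ii) ⇒ (i) -/

section easy

variable {V F : Type*} [AddCommGroup V] [AddCommGroup F]

lemma iterDelta_congr {s : ℕ} : ∀ (Ω : Set V) (n : V) (h : Fin s → V) (g g' : V → F),
    IsGowers Ω n h → (∀ v ∈ Ω, g v = g' v) →
    iterDelta (List.ofFn h) g n = iterDelta (List.ofFn h) g' n := by
  induction s with
  | zero =>
    intro Ω n h g g' hG hgg
    simp only [List.ofFn_zero, iterDelta]
    apply hgg
    simpa using hG (fun i => i.elim0)
  | succ s ih =>
    intro Ω n h g g' hG hgg
    simp only [List.ofFn_succ, iterDelta]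
    apply ih (Ω ∩ {v | v + h 0 ∈ Ω})
    · intro ε
      constructor
      · have := hG (Fin.cons 0 ε)
        rw [Fin.sum_univ_succ] at this
        simpa using this
      · have := hG (Fin.cons 1 ε)
        rw [Fin.sum_univ_succ] at this
        simp only [Fin.cons_zero, Fin.cons_succ] at this
        have e : n + ((1 : Fin 2) : ℕ) • h 0 + ∑ i, (ε i : ℕ) • h i.succ ∈ Ω := by
          rw [add_assoc]; exact this
        show n + ∑ i, (ε i : ℕ) • h i.succ + h 0 ∈ Ω
        have e2 : n + ∑ i, (ε i : ℕ) • h i.succ + h 0 =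
          n + ((1 : Fin 2) : ℕ) • h 0 + ∑ i, (ε i : ℕ) • h i.succ := by
          simp only [Fin.val_one, one_smul]
          abel
        rw [e2]
        exact e
    · rintro v ⟨hv1, hv2⟩
      simp only [Delta]
      rw [hgg v hv1, hgg _ hv2]

end easy

section easy2

variable {p d : ℕ} [Fact p.Prime]

/-- functions given by polynomials of total degree at most `k` -/
def PF (k : ℕ) (f : (Fin d → ZMod p) → ZMod p) : Prop :=
  ∃ P : MvPolynomial (Fin d) (ZMod p), P.totalDegree ≤ k ∧ ∀ n, f n = MvPolynomial.eval n P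

lemma PF_add {k : ℕ} {f g : (Fin d → ZMod p) → ZMod p} (hf : PF k f) (hg : PF k g) :
    PF k (fun n => f n + g n) := by
  obtain ⟨P, hP, hP'⟩ := hf
  obtain ⟨R, hR, hR'⟩ := hg
  refine ⟨P + R, (MvPolynomial.totalDegree_add _ _).trans (max_le hP hR), fun n => ?_⟩
  simp only [hP' n, hR' n, map_add]

lemma PF_mul {k l : ℕ} {f g : (Fin d → ZMod p) → ZMod p} (hf : PF k f) (hg : PF l g) :
    PF (k + l) (fun n => f n * g n) := by
  obtain ⟨P, hP, hP'⟩ := hf
  obtain ⟨R, hR, hR'⟩ := hg
  refine ⟨P * R, (MvPolynomial.totalDegree_mul _ _).trans (add_le_add hP hR), fun n => ?_⟩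
  simp only [hP' n, hR' n, map_mul]

lemma PF_const (k : ℕ) (c : ZMod p) : PF k (fun _ : Fin d → ZMod p => c) :=
  ⟨MvPolynomial.C c, by simp, by simp⟩

lemma PF_mono {k l : ℕ} (h : k ≤ l) {f : (Fin d → ZMod p) → ZMod p} (hf : PF k f) : PF l f := by
  obtain ⟨P, hP, hP'⟩ := hf
  exact ⟨P, hP.trans h, hP'⟩

lemma PF_sum {k : ℕ} {T : Type*} (s : Finset T) (f : T → (Fin d → ZMod p) → ZMod p)
    (h : ∀ a ∈ s, PF k (f a)) : PF k (fun n => ∑ a ∈ s, f a n) := by
  classical
  induction s using Finset.induction_on with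
  | empty => simpa using PF_const k 0
  | insert a s ha ih =>
    have := PF_add (h a (Finset.mem_insert_self a s))
      (ih (fun b hb => h b (Finset.mem_insert_of_mem hb)))
    simpa only [Finset.sum_insert ha] using this

lemma PF_prod {T : Type*} (s : Finset T) (k : T → ℕ) (f : T → (Fin d → ZMod p) → ZMod p)
    (h : ∀ a ∈ s, PF (k a) (f a)) : PF (∑ a ∈ s, k a) (fun n => ∏ a ∈ s, f a n) := by
  classical
  induction s using Finset.induction_on with
  | empty => simpa using PF_const 0 1
  | insert a s ha ih =>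
    have := PF_mul (h a (Finset.mem_insert_self a s))
      (ih (fun b hb => h b (Finset.mem_insert_of_mem hb)))
    simpa only [Finset.sum_insert ha, Finset.prod_insert ha] using this

lemma PF_pow {k : ℕ} {f : (Fin d → ZMod p) → ZMod p} (hf : PF k f) (r : ℕ) :
    PF (r * k) (fun n => f n ^ r) := by
  induction r with
  | zero => simpa using PF_const 0 1
  | succ r ih =>
    have := PF_mul ih hf
    simpa only [pow_succ, Nat.succ_mul] using this

lemma PF_lin (ℓ : (Fin d → ZMod p) →ₗ[ZMod p] ZMod p) : PF 1 (fun n => ℓ n) := by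
  refine ⟨∑ i, MvPolynomial.C (ℓ (Pi.single i 1)) * MvPolynomial.X i, ?_, fun n => ?_⟩
  · apply MvPolynomial.totalDegree_finsetSum_le
    intro i _
    refine (MvPolynomial.totalDegree_mul _ _).trans ?_
    rw [MvPolynomial.totalDegree_C, MvPolynomial.totalDegree_X]
  · rw [map_sum]
    simp only [map_mul, MvPolynomial.eval_C, MvPolynomial.eval_X]
    rw [LinearMap.pi_apply_eq_sum_univ ℓ n]
    refine Finset.sum_congr rfl fun i _ => ?_
    rw [smul_eq_mul, mul_comm]
    congr 2
    ext j
    simp [Pi.single_apply, eq_comm]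

lemma PF_shift {k : ℕ} {f : (Fin d → ZMod p) → ZMod p} (hf : PF k f) (h : Fin d → ZMod p) :
    PF k (fun n => f (n + h)) := by
  obtain ⟨P, hP, hP'⟩ := hf
  have h1 : ∀ n, f (n + h) = ∑ α ∈ P.support, MvPolynomial.coeff α P *
      ∏ i, (n i + h i) ^ (α i) := by
    intro n
    rw [hP', MvPolynomial.eval_eq']
    simp
  have h2 : (fun n => f (n + h)) = fun n => ∑ α ∈ P.support, MvPolynomial.coeff α P *
      ∏ i, (n i + h i) ^ (α i) := funext h1
  rw [h2]
  apply PF_sum
  intro α hα
  have h3 : ∑ i, α i ≤ k := by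
    have := MvPolynomial.le_totalDegree hα
    rw [Finsupp.sum_fintype _ _ (fun _ => rfl)] at this
    omega
  have h4 : PF (0 + ∑ i, α i * 1) (fun n : Fin d → ZMod p => MvPolynomial.coeff α P *
      ∏ i, (n i + h i) ^ (α i)) := by
    apply PF_mul (PF_const 0 _)
    apply PF_prod
    intro i _
    apply PF_pow
    exact PF_add (PF_lin (LinearMap.proj i)) (PF_const 1 _)
  refine PF_mono ?_ h4
  simpa using h3

lemma PF_Delta_monomial (α : Fin d → ℕ) (h : Fin d → ZMod p) (s : Finset (Fin d)) :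
    PF ((∑ i ∈ s, α i) - 1) (fun n : Fin d → ZMod p =>
      (∏ i ∈ s, (n i + h i) ^ (α i)) - ∏ i ∈ s, n i ^ (α i)) ∧
    ((∑ i ∈ s, α i) = 0 → ∀ n : Fin d → ZMod p,
      (∏ i ∈ s, (n i + h i) ^ (α i)) - ∏ i ∈ s, n i ^ (α i) = 0) := by
  classical
  constructor
  swap
  · intro h0 n
    have : ∀ i ∈ s, α i = 0 := by
      intro i hi
      exact (Finset.sum_eq_zero_iff.mp h0) i hi
    rw [Finset.prod_congr rfl (g := fun _ => (1 : ZMod p)) (fun i hi => by rw [this i hi, pow_zero]),
      Finset.prod_congr rfl (g := fun _ => (1 : ZMod p))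
        (f := fun i => n i ^ α i) (fun i hi => by rw [this i hi, pow_zero])]
    simp
  -- one-variable statement
  have one : ∀ (i : Fin d) (r : ℕ), PF (r - 1) (fun n : Fin d → ZMod p =>
      (n i + h i) ^ r - n i ^ r) := by
    intro i r
    induction r with
    | zero => simpa using PF_const 0 0
    | succ r ih =>
      rcases Nat.eq_zero_or_pos r with hr | hr
      · subst hr
        simpa using PF_const 0 (h i)
      · have h1 : PF (r - 1 + 1) (fun n : Fin d → ZMod p =>
          ((n i + h i) ^ r - n i ^ r) * (n i + h i)) :=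
          PF_mul ih (PF_add (PF_lin (LinearMap.proj i)) (PF_const 1 _))
        have h2 : PF (r * 1 + 0) (fun n : Fin d → ZMod p => n i ^ r * h i) :=
          PF_mul (PF_pow (PF_lin (LinearMap.proj i)) r) (PF_const 0 _)
        have h3 := PF_add (PF_mono (show r - 1 + 1 ≤ r by omega) h1)
          (PF_mono (show r * 1 + 0 ≤ r by omega) h2)
        have h4 : (fun n : Fin d → ZMod p => ((n i + h i) ^ r - n i ^ r) * (n i + h i) +
          n i ^ r * h i) = (fun n : Fin d → ZMod p => (n i + h i) ^ (r + 1) - n i ^ (r + 1)) := by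
          funext n
          ring
        rw [h4] at h3
        simpa using h3
  induction s using Finset.induction_on with
  | empty => simpa using PF_const 0 0
  | insert a s ha ih =>
    rw [Finset.sum_insert ha]
    simp only [Finset.prod_insert ha]
    have hs1 : PF (∑ i ∈ s, α i * 1) (fun n : Fin d → ZMod p => ∏ i ∈ s, (n i + h i) ^ (α i)) :=
      PF_prod s _ _ (fun i _ => PF_pow (PF_add (PF_lin (LinearMap.proj i)) (PF_const 1 _)) _)
    have hs2 : PF (α a * 1) (fun n : Fin d → ZMod p => n a ^ α a) :=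
      PF_pow (PF_lin (LinearMap.proj a)) _
    simp only [mul_one] at hs1 hs2
    have key : (fun n : Fin d → ZMod p => (n a + h a) ^ α a * ∏ i ∈ s, (n i + h i) ^ (α i) -
        n a ^ α a * ∏ i ∈ s, n i ^ (α i)) =
        (fun n : Fin d → ZMod p => ((n a + h a) ^ α a - n a ^ α a) *
          (∏ i ∈ s, (n i + h i) ^ (α i)) +
          n a ^ α a * ((∏ i ∈ s, (n i + h i) ^ (α i)) - ∏ i ∈ s, n i ^ (α i))) := by
      funext n; ring
    rw [key]
    apply PF_add
    · rcases Nat.eq_zero_or_pos (α a) with h0 | h0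
      · rw [h0]
        simpa using PF_const (d := d) (p := p) ((∑ i ∈ s, α i) - 1) 0
      · exact PF_mono (by omega) (PF_mul (one a (α a)) hs1)
    · rcases Nat.eq_zero_or_pos (∑ i ∈ s, α i) with h0 | h0
      · have : (fun n : Fin d → ZMod p =>
          n a ^ α a * ((∏ i ∈ s, (n i + h i) ^ (α i)) - ∏ i ∈ s, n i ^ (α i))) =
          fun _ => 0 := by
          funext n
          have h5 : ∀ i ∈ s, α i = 0 := fun i hi => (Finset.sum_eq_zero_iff.mp h0) i hi
          rw [Finset.prod_congr rfl (g := fun _ => (1 : ZMod p))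
              (fun i hi => by rw [h5 i hi, pow_zero]),
            Finset.prod_congr rfl (g := fun _ => (1 : ZMod p))
              (f := fun i => n i ^ α i) (fun i hi => by rw [h5 i hi, pow_zero])]
          simp
        rw [this]
        exact PF_const _ _
      · exact PF_mono (by omega) (PF_mul hs2 ih)

lemma PF_Delta {k : ℕ} {f : (Fin d → ZMod p) → ZMod p} (hf : PF k f) (h : Fin d → ZMod p) :
    PF (k - 1) (Delta h f) ∧ (k = 0 → ∀ n, Delta h f n = 0) := by
  obtain ⟨P, hP, hP'⟩ := hf
  constructor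
  swap
  · intro hk n
    subst hk
    have hc : P = MvPolynomial.C (P.coeff 0) :=
      MvPolynomial.totalDegree_eq_zero_iff_eq_C.mp (Nat.le_zero.mp hP)
    simp only [Delta, hP']
    rw [hc]
    simp
  have h2 : Delta h f = fun n => ∑ α ∈ P.support, MvPolynomial.coeff α P *
      ((∏ i, (n i + h i) ^ (α i)) - ∏ i, n i ^ (α i)) := by
    funext n
    simp only [Delta, hP', MvPolynomial.eval_eq', mul_sub, Finset.sum_sub_distrib, Pi.add_apply]
  rw [h2]
  apply PF_sum
  intro α hα
  have h3 : ∑ i, α i ≤ k := by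
    have := MvPolynomial.le_totalDegree hα
    rw [Finsupp.sum_fintype _ _ (fun _ => rfl)] at this
    omega
  have h4 := PF_mul (PF_const 0 (MvPolynomial.coeff α P))
    (PF_Delta_monomial (fun i => α i) h Finset.univ).1
  refine PF_mono ?_ h4
  omega

lemma iterDelta_PF : ∀ (l : List (Fin d → ZMod p)) (f : (Fin d → ZMod p) → ZMod p) (k : ℕ),
    PF k f → k < l.length → ∀ n, iterDelta l f n = 0 := by
  have hz : ∀ (l : List (Fin d → ZMod p)) (n : Fin d → ZMod p),
      iterDelta l (fun _ => (0 : ZMod p)) n = 0 := by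
    intro l
    induction l with
    | nil => intro n; rfl
    | cons h t ih =>
      intro n
      have : Delta h (fun _ : Fin d → ZMod p => (0 : ZMod p)) = fun _ => 0 := by
        funext n; simp [Delta]
      simp only [iterDelta, this]
      exact ih n
  intro l
  induction l with
  | nil => intro f k _ hk; exact absurd hk (by simp)
  | cons h t ih =>
    intro f k hf hk n
    simp only [iterDelta]
    rcases Nat.eq_zero_or_pos k with h0 | h0
    · have : Delta h f = fun _ => 0 := funext ((PF_Delta hf h).2 h0)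
      rw [this]
      exact hz t n
    · refine ih _ (k - 1) (PF_Delta hf h).1 ?_ n
      simp only [List.length_cons] at hk
      omega

theorem condI_of_condII {s : ℕ} (hs : 1 ≤ s) (A : Matrix (Fin d) (Fin d) (ZMod p))
    (g : (Fin d → ZMod p) → ZMod p) (h : CondII s A g) : CondI s A g := by
  obtain ⟨P, hP, hP'⟩ := h
  intro n h hG
  rw [iterDelta_congr (zeroSet A) n h g (fun n => MvPolynomial.eval n P) hG hP']
  apply iterDelta_PF _ _ (s - 1) ⟨P, hP, fun _ => rfl⟩
  rw [List.length_ofFn]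
  omega

end easy2

/-! ### (i) ⇒ (ii) -/

section hard

variable {p d : ℕ} [Fact p.Prime]

lemma iterDelta_const {V F : Type*} [AddCommGroup V] [AddCommGroup F] (u : V) (s : ℕ) :
    ∀ (g : V → F), iterDelta (List.ofFn (fun _ : Fin s => u)) g = (fwdDiff u)^[s] g := by
  induction s with
  | zero => intro g; simp [iterDelta]
  | succ s ih =>
    intro g
    rw [List.ofFn_succ, iterDelta, ih, Function.iterate_succ_apply]
    rfl

/-- vanishing `s`-fold differences in one variable -/
lemma PD_of_fwdDiff {s : ℕ} (hs : 1 ≤ s) (hsp : s ≤ p) (φ : ZMod p → ZMod p)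
    (h : ∀ t, (fwdDiff (1 : ZMod p))^[s] φ t = 0) : PD (s - 1) φ := by
  have hz : ∀ k, s ≤ k → (fwdDiff (1 : ZMod p))^[k] φ 0 = 0 := by
    intro k hk
    obtain ⟨r, rfl⟩ := Nat.exists_eq_add_of_le hk
    rw [add_comm, Function.iterate_add_apply]
    have h0 : (fwdDiff (1 : ZMod p))^[s] φ = fun _ => 0 := funext h
    rw [h0]
    rw [fwdDiff_iter_eq_sum_shift]
    simp
  refine ⟨∑ k ∈ range s, Polynomial.C ((fwdDiff (1 : ZMod p))^[k] φ 0 *
    ((k.factorial : ℕ) : ZMod p)⁻¹) * descPochhammer (ZMod p) k, ?_, fun t => ?_⟩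
  · refine Polynomial.natDegree_sum_le_of_forall_le _ _ fun k hk => ?_
    refine (Polynomial.natDegree_C_mul_le _ _).trans ?_
    rw [descPochhammer_natDegree]
    have := Finset.mem_range.mp hk
    omega
  · have ht : t = 0 + (t.val) • (1 : ZMod p) := by simp
    rw [Polynomial.eval_finsetSum]
    conv_lhs => rw [ht]
    rw [shift_eq_sum_fwdDiff_iter (1 : ZMod p) φ t.val 0]
    have e1 : ∀ k ∈ range s, Polynomial.eval t (Polynomial.C ((fwdDiff (1 : ZMod p))^[k] φ 0 *
        ((k.factorial : ℕ) : ZMod p)⁻¹) * descPochhammer (ZMod p) k) =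
        (t.val).choose k • (fwdDiff (1 : ZMod p))^[k] φ 0 := by
      intro k hk
      rw [Polynomial.eval_mul, Polynomial.eval_C]
      have h1 : Polynomial.eval t (descPochhammer (ZMod p) k) =
          ((t.val.descFactorial k : ℕ) : ZMod p) := by
        rw [← descPochhammer_eval_eq_descFactorial]
        congr 1
        simp
      rw [h1, Nat.descFactorial_eq_factorial_mul_choose, nsmul_eq_mul]
      have hk' := Finset.mem_range.mp hk
      have hne : ((k.factorial : ℕ) : ZMod p) ≠ 0 := by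
        rw [Ne, ZMod.natCast_eq_zero_iff, (Fact.out : p.Prime).dvd_factorial]
        omega
      push_cast
      field_simp
    rw [Finset.sum_congr rfl e1]
    -- compare the two ranges
    have e2 : ∑ k ∈ range (t.val + 1), (t.val).choose k • (fwdDiff (1 : ZMod p))^[k] φ 0 =
        ∑ k ∈ range (max s (t.val + 1)), (t.val).choose k • (fwdDiff (1 : ZMod p))^[k] φ 0 := by
      apply Finset.sum_subset (Finset.range_subset_range.mpr (le_max_right _ _))
      intro k _ hk
      rw [Finset.mem_range, not_lt] at hk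
      rw [Nat.choose_eq_zero_of_lt (by omega), zero_smul]
    have e3 : ∑ k ∈ range s, (t.val).choose k • (fwdDiff (1 : ZMod p))^[k] φ 0 =
        ∑ k ∈ range (max s (t.val + 1)), (t.val).choose k • (fwdDiff (1 : ZMod p))^[k] φ 0 := by
      apply Finset.sum_subset (Finset.range_subset_range.mpr (le_max_left _ _))
      intro k _ hk
      rw [Finset.mem_range, not_lt] at hk
      rw [hz k hk, smul_zero]
    rw [e2, e3]

lemma fwdDiff_line {V : Type*} [AddCommGroup V] [Module (ZMod p) V] (g : V → ZMod p) (n u : V)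
    (r : ℕ) (t : ZMod p) :
    (fwdDiff (1 : ZMod p))^[r] (fun t => g (n + t • u)) t = (fwdDiff u)^[r] g (n + t • u) := by
  induction r generalizing t with
  | zero => rfl
  | succ r ih =>
    rw [Function.iterate_succ_apply', Function.iterate_succ_apply', fwdDiff, fwdDiff, ih, ih,
      add_smul, one_smul, add_assoc]

/-- Condition (i) gives polynomiality along lines contained in `V(M)`. -/
lemma line {s : ℕ} (hs : 1 ≤ s) (hsp : s ≤ p) (A : Matrix (Fin d) (Fin d) (ZMod p))
    (g : (Fin d → ZMod p) → ZMod p) (hg : CondI s A g) (n u : Fin d → ZMod p)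
    (hl : ∀ t : ZMod p, quad A (n + t • u) = 0) : PD (s - 1) (fun t => g (n + t • u)) := by
  apply PD_of_fwdDiff hs hsp
  intro t
  rw [fwdDiff_line, ← iterDelta_const]
  apply hg
  intro ε
  have : n + t • u + ∑ i, (ε i : ℕ) • u = n + (t + ((∑ i, (ε i : ℕ) : ℕ) : ZMod p)) • u := by
    rw [← Finset.sum_smul, add_smul, Nat.cast_smul_eq_nsmul, add_assoc]
  rw [this]
  exact hl _

lemma PD_mul {k l : ℕ} {f g : ZMod p → ZMod p} (hf : PD k f) (hg : PD l g) :
    PD (k + l) (fun t => f t * g t) := by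
  obtain ⟨P, hP, hP'⟩ := hf
  obtain ⟨R, hR, hR'⟩ := hg
  refine ⟨P * R, Polynomial.natDegree_mul_le.trans (add_le_add hP hR), fun t => ?_⟩
  simp only [hP' t, hR' t, Polynomial.eval_mul]

lemma PD_const (k : ℕ) (c : ZMod p) : PD k (fun _ : ZMod p => c) :=
  ⟨Polynomial.C c, by simp, by simp⟩

lemma PD_mono {k l : ℕ} (h : k ≤ l) {f : ZMod p → ZMod p} (hf : PD k f) : PD l f := by
  obtain ⟨P, hP, hP'⟩ := hf
  exact ⟨P, hP.trans h, hP'⟩

lemma PD_pow {k : ℕ} {f : ZMod p → ZMod p} (hf : PD k f) (r : ℕ) :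
    PD (r * k) (fun t => f t ^ r) := by
  induction r with
  | zero => simpa using PD_const 0 1
  | succ r ih =>
    have := PD_mul ih hf
    simpa only [pow_succ, Nat.succ_mul] using this

lemma PD_prod {T : Type*} (s : Finset T) (k : T → ℕ) (f : T → ZMod p → ZMod p)
    (h : ∀ a ∈ s, PD (k a) (f a)) : PD (∑ a ∈ s, k a) (fun n => ∏ a ∈ s, f a n) := by
  classical
  induction s using Finset.induction_on with
  | empty => simpa using PD_const 0 1
  | insert a s ha ih =>
    have := PD_mul (h a (Finset.mem_insert_self a s))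
      (ih (fun b hb => h b (Finset.mem_insert_of_mem hb)))
    simpa only [Finset.sum_insert ha, Finset.prod_insert ha] using this

lemma PD_lin (x a : ZMod p) : PD 1 (fun t => x + t * a) :=
  ⟨Polynomial.C x + Polynomial.X * Polynomial.C a, by
    refine (Polynomial.natDegree_add_le _ _).trans (max_le (by simp) ?_)
    refine Polynomial.natDegree_mul_le.trans ?_
    simp, fun t => by rw [Polynomial.eval_add, Polynomial.eval_C, Polynomial.eval_mul, Polynomial.eval_X, Polynomial.eval_C]⟩

lemma PD_add {k : ℕ} {f g : ZMod p → ZMod p} (hf : PD k f) (hg : PD k g) :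
    PD k (fun t => f t + g t) := by
  obtain ⟨P, hP, hP'⟩ := hf
  obtain ⟨R, hR, hR'⟩ := hg
  refine ⟨P + R, (Polynomial.natDegree_add_le _ _).trans (max_le hP hR), fun n => ?_⟩
  simp only [hP' n, hR' n, Polynomial.eval_add]

/-- the explicit polynomial of the core theorem -/
def expl {m k : ℕ} (c c' : Fin (k + 1) → (Fin m → Fin (k + 1)) → ZMod p)
    (x y : ZMod p) (z : Fin m → ZMod p) : ZMod p :=
  (∑ j : Fin (k + 1), ∑ α, if (∑ i, (α i : ℕ)) ≤ (j : ℕ) then
      c j α * (∏ i, z i ^ (α i : ℕ)) * y ^ ((j : ℕ) - ∑ i, (α i : ℕ)) else 0) +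
    (∑ j : Fin (k + 1), ∑ α, if (∑ i, (α i : ℕ)) < (j : ℕ) then
      c' j α * (∏ i, z i ^ (α i : ℕ)) * x ^ ((j : ℕ) - ∑ i, (α i : ℕ)) else 0)

lemma LP_expl {m k : ℕ} (q : QuadraticForm (ZMod p) (Fin m → ZMod p))
    (c c' : Fin (k + 1) → (Fin m → Fin (k + 1)) → ZMod p) : LP k q (expl c c') := by
  intro x y z a b w _
  have aux : ∀ (c : ZMod p) (j : Fin (k + 1)) (α : Fin m → Fin (k + 1)) (y b : ZMod p),
      (∑ i, (α i : ℕ)) ≤ (j : ℕ) →
      PD k (fun t => c * (∏ i, (z + t • w) i ^ (α i : ℕ)) *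
        (y + t * b) ^ ((j : ℕ) - ∑ i, (α i : ℕ))) := by
    intro c j α y b hα
    have h1 : PD (0 + (∑ i, (α i : ℕ) * 1) + ((j : ℕ) - ∑ i, (α i : ℕ)) * 1)
        (fun t => c * (∏ i, (z + t • w) i ^ (α i : ℕ)) *
        (y + t * b) ^ ((j : ℕ) - ∑ i, (α i : ℕ))) := by
      apply PD_mul
      · apply PD_mul (PD_const 0 _)
        apply PD_prod
        intro i _
        apply PD_pow
        simpa only [Pi.add_apply, Pi.smul_apply, smul_eq_mul] using PD_lin (z i) (w i)
      · exact PD_pow (PD_lin _ _) _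
    refine PD_mono ?_ h1
    have := j.isLt
    simp only [mul_one]
    omega
  unfold expl
  apply PD_add
  · apply PD_sum
    intro j _
    apply PD_sum
    intro α _
    split_ifs with h
    · exact aux _ j α y b h
    · exact PD_const _ _
  · apply PD_sum
    intro j _
    apply PD_sum
    intro α _
    split_ifs with h
    · exact aux _ j α x a h.le
    · exact PD_const _ _

lemma PF_expl {m k : ℕ} (c c' : Fin (k + 1) → (Fin m → Fin (k + 1)) → ZMod p)
    (X Y : (Fin d → ZMod p) →ₗ[ZMod p] ZMod p)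
    (Z : (Fin d → ZMod p) →ₗ[ZMod p] (Fin m → ZMod p)) :
    PF k (fun n => expl c c' (X n) (Y n) (Z n)) := by
  have aux : ∀ (c : ZMod p) (j : Fin (k + 1)) (α : Fin m → Fin (k + 1))
      (Y : (Fin d → ZMod p) →ₗ[ZMod p] ZMod p),
      (∑ i, (α i : ℕ)) ≤ (j : ℕ) →
      PF k (fun n => c * (∏ i, (Z n) i ^ (α i : ℕ)) *
        (Y n) ^ ((j : ℕ) - ∑ i, (α i : ℕ))) := by
    intro c j α Y hα
    have h1 : PF (0 + (∑ i, (α i : ℕ) * 1) + ((j : ℕ) - ∑ i, (α i : ℕ)) * 1)
        (fun n => c * (∏ i, (Z n) i ^ (α i : ℕ)) *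
        (Y n) ^ ((j : ℕ) - ∑ i, (α i : ℕ))) := by
      apply PF_mul
      · apply PF_mul (PF_const 0 _)
        apply PF_prod
        intro i _
        apply PF_pow
        exact PF_lin ((LinearMap.proj i).comp Z)
      · exact PF_pow (PF_lin _) _
    refine PF_mono ?_ h1
    have := j.isLt
    simp only [mul_one]
    omega
  unfold expl
  apply PF_add
  · apply PF_sum
    intro j _
    apply PF_sum
    intro α _
    split_ifs with h
    · exact aux _ j α Y h
    · exact PF_const _ _
  · apply PF_sum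
    intro j _
    apply PF_sum
    intro α _
    split_ifs with h
    · exact aux _ j α X h.le
    · exact PF_const _ _

theorem condII_of_condI {s : ℕ} (hs : 1 ≤ s) (hp : 2 * d ^ 2 + 3 ≤ p)
    (A : Matrix (Fin d) (Fin d) (ZMod p)) (hA : A.IsSymm) (hr : max 5 s ≤ A.rank)
    (g : (Fin d → ZMod p) → ZMod p) (h : CondI s A g) : CondII s A g := by
  classical
  have hp2 : p ≠ 2 := by
    have : 1 ≤ d ^ 2 + 1 := by omega
    omega
  have h2 : (2 : ZMod p) ≠ 0 := by
    intro h0
    have : ((2 : ℕ) : ZMod p) = 0 := by exact_mod_cast h0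
    rw [ZMod.natCast_eq_zero_iff] at this
    exact hp2 ((Nat.prime_dvd_prime_iff_eq (Fact.out) Nat.prime_two).mp this)
  have hrd : A.rank ≤ d := by
    simpa using A.rank_le_card_width
  have hsd : s ≤ d := (le_max_right _ _).trans (hr.trans hrd)
  -- the quadratic form
  let Q : QuadraticForm (ZMod p) (Fin d → ZMod p) :=
    LinearMap.BilinMap.toQuadraticMap (Matrix.toLinearMap₂' (ZMod p) A)
  have hQ : ∀ n, Q n = quad A n := by
    intro n
    simp only [Q, LinearMap.BilinMap.toQuadraticMap_apply, Matrix.toLinearMap₂'_apply', quad]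
  have hker : LinearMap.ker Q.polarBilin ≤ LinearMap.ker A.mulVecLin := by
    intro n hn
    rw [LinearMap.mem_ker] at hn ⊢
    have h3 : ∀ v, v ⬝ᵥ A.mulVec n = 0 := by
      intro v
      have h4 : Q.polarBilin n v = 0 := by rw [hn]; rfl
      rw [QuadraticMap.polarBilin_apply_apply] at h4
      simp only [Q] at h4
      rw [LinearMap.BilinMap.polar_toQuadraticMap, Matrix.toLinearMap₂'_apply',
        Matrix.toLinearMap₂'_apply'] at h4
      have h5 : n ⬝ᵥ A.mulVec v = v ⬝ᵥ A.mulVec n := by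
        rw [Matrix.dotProduct_mulVec, ← Matrix.mulVec_transpose, hA.eq, dotProduct_comm]
      rw [h5] at h4
      have h6 : (2 : ZMod p) * (v ⬝ᵥ A.mulVec n) = 0 := by linear_combination h4
      exact (mul_eq_zero.mp h6).resolve_left h2
    ext i
    have := h3 (Pi.single i 1)
    simpa using this
  have hfin : Module.finrank (ZMod p) (LinearMap.ker Q.polarBilin) + 5 ≤
      Module.finrank (ZMod p) (Fin d → ZMod p) := by
    have h3 := Submodule.finrank_mono hker
    have h4 := LinearMap.finrank_range_add_finrank_ker A.mulVecLin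
    have h5 : A.rank = Module.finrank (ZMod p) (LinearMap.range A.mulVecLin) := rfl
    have h6 := (le_max_left 5 s).trans hr
    omega
  obtain ⟨m, hm, v, w, ι, X, Y, Z, q, hdec, hQf, hq, i0, i1, hi⟩ := normal_form hp2 Q hfin
  rw [Module.finrank_fin_fun] at hm
  -- the transported function
  let G : ZMod p → ZMod p → (Fin m → ZMod p) → ZMod p := fun x y z => g (x • v + y • w + ι z)
  have hG : LP (s - 1) q G := by
    intro x y z a b w' hl
    have e1 : ∀ t : ZMod p, (x + t * a) • v + (y + t * b) • w + ι (z + t • w') =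
        (x • v + y • w + ι z) + t • (a • v + b • w + ι w') := by
      intro t
      rw [map_add, map_smul]
      module
    have := line hs (by nlinarith) A g h (x • v + y • w + ι z) (a • v + b • w + ι w') (by
      intro t
      rw [← e1 t, ← hQ, hQf]
      exact hl t)
    have e2 : (fun t => G (x + t * a) (y + t * b) (z + t • w')) =
        fun t => g ((x • v + y • w + ι z) + t • (a • v + b • w + ι w')) := by
      funext t
      simp only [G]
      rw [e1 t]
    rw [e2]
    exact this
  have hbound : 2 * ((m + 1) * (s - 1)) + 2 < p := by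
    have : (m + 1) * (s - 1) ≤ d * d := Nat.mul_le_mul hm (by omega)
    nlinarith
  have hbound2 : s - 1 + 1 < p := by nlinarith
  obtain ⟨c, c', hc⟩ := core hbound2 hbound q hq G hG
  have hD : LP (s - 1) q (fun x y z => G x y z - expl c c' x y z) := by
    intro x y z a b w' hl
    exact PD_sub _ _ (hG x y z a b w' hl) (LP_expl q c c' x y z a b w' hl)
  have hzero := extend hbound2 q hq i0 i1 hi _ hD (by
    intro x y z hx hy hxy
    rw [hc x y z hx hy hxy]
    unfold expl
    ring)
  obtain ⟨P, hP, hP'⟩ := PF_expl c c' X Y Z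
  refine ⟨P, hP, fun n hn => ?_⟩
  rw [← hP' n]
  have h7 : g n = G (X n) (Y n) (Z n) := by
    simp only [G]
    rw [← hdec n]
  rw [h7]
  have h8 : X n * Y n + q (Z n) = 0 := by
    rw [← hQf, ← hdec n, hQ]
    exact hn
  exact sub_eq_zero.mp (hzero _ _ _ h8)

end hard

/-- **Q1 holds**, with `C_s = max(5, s)` and `P_d = 2d² + 3`. -/
theorem result : ∃ C P : ℕ → ℕ, (∀ s, C s = max 5 s) ∧ (∀ d, P d = 2 * d ^ 2 + 3) ∧
    ∀ d s : ℕ, 1 ≤ d → 1 ≤ s → ∀ p : ℕ, p.Prime → P d ≤ p →
      ∀ A : Matrix (Fin d) (Fin d) (ZMod p), A.IsSymm → C s ≤ A.rank →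
        ∀ g : (Fin d → ZMod p) → ZMod p, CondI s A g ↔ CondII s A g := by
  refine ⟨fun s => max 5 s, fun d => 2 * d ^ 2 + 3, fun _ => rfl, fun _ => rfl, ?_⟩
  intro d s _ hs p hp hpd A hA hr g
  have : Fact p.Prime := ⟨hp⟩
  exact ⟨condII_of_condI hs hpd A hA hr g, condI_of_condII hs A g⟩

end Pool.Agent.Results.MP_5cbcf2_nt.Quadric
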